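import Pool.Agent.Lib_VM.DefsVI_h71

/-!
# MP_5582d1_ag: definitions for the final statement, in short form

`X = E₁³ × E₂³` over `ℂ`. Intersection numbers of three-dimensional subvarieties, `N₃(X)_ℝ`, the
effective cone, general tangent 3-planes.
-/

set_option autoImplicit false

namespace Pool.Agent.VMF

open Pool.Agent.VM
open scoped Classical TensorProduct

noncomputable section

/-! ## The function field of a product -/

section
variable (P A B : Type) [Field P] [Field A] [Field B] [Algebra P A] [Algebra P B]

/-- the tensor product over `P` -/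
def Ten : Type := A ⊗[P] B

/-- its ring structure -/
instance Ten.ring : CommRing (Ten P A B) := Algebra.TensorProduct.instCommRing

/-- its algebra structure -/
instance Ten.alg : Algebra P (Ten P A B) := Algebra.TensorProduct.instAlgebra

instance Ten.dom [IsAlgClosed P] : IsDomain (Ten P A B) := inferInstanceAs (IsDomain (A ⊗[P] B))

/-- `a ↦ a ⊗ 1` -/
def Ten.inl : A →ₐ[P] Ten P A B := Algebra.TensorProduct.includeLeft (R := P) (S := P) (A := A) (B := B)

/-- `b ↦ 1 ⊗ b` -/
def Ten.inr : B →ₐ[P] Ten P A B := Algebra.TensorProduct.includeRight (R := P) (A := A) (B := B)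

/-- the field of fractions of the tensor product -/
def Jf : Type := FractionRing (Ten P A B)

/-- its field structure -/
instance Jf.fld [IsAlgClosed P] : Field (Jf P A B) := FractionRing.field (Ten P A B)

/-- its algebra structure -/
instance Jf.alg [IsAlgClosed P] : Algebra P (Jf P A B) :=
  OreLocalization.instAlgebra (R := Ten P A B) (S := nonZeroDivisors (Ten P A B)) (R₀ := P)

/-- the embedding of the tensor product in its field of fractions -/
def Ten.toJ [IsAlgClosed P] : Ten P A B →ₐ[P] Jf P A B :=
  IsScalarTower.toAlgHom P (Ten P A B) (FractionRing (Ten P A B))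

/-- the embedding of `A` -/
def Jf.inl [IsAlgClosed P] : A →ₐ[P] Jf P A B := (Ten.toJ P A B).comp (Ten.inl P A B)

/-- the embedding of `B` -/
def Jf.inr [IsAlgClosed P] : B →ₐ[P] Jf P A B := (Ten.toJ P A B).comp (Ten.inr P A B)

end

/-! ## Intersection numbers -/

section
variable {P : Type} [Field P] [IsAlgClosed P] {l : P}

/-- the intersection number of `Z` and `W`: the degree of the difference map `Z × W → X`,
`(ξ, η) ↦ ξ - η`, which is the number of points of `Z ∩ (W + t)` for general `t` -/
def inter (Z W : SubVar l) : ℕ :=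
  diffDeg (Jf.inl P Z.M W.M) (Jf.inr P Z.M W.M) Z.pt W.pt

end

/-! ## The space `N₃(X)_ℝ` and the effective cone -/

/-- `Z` as a function on the subvarieties -/
def cl₀ {l : ℂ} (Z : SubVar l) : SubVar l → ℝ := fun W => inter Z W

/-- `N₃(X)_ℝ`: real cycles of dimension 3 modulo numerical equivalence, with the weakest topology
for which the intersection numbers with the subvarieties are continuous -/
abbrev N₃ (l : ℂ) : Submodule ℝ (SubVar l → ℝ) := Submodule.span ℝ (Set.range (cl₀ (l := l)))

/-- the class of a subvariety -/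
def cl {l : ℂ} (Z : SubVar l) : N₃ l := ⟨cl₀ Z, Submodule.subset_span ⟨Z, rfl⟩⟩

/-- the effective cone: the closure of the convex cone spanned by the classes of the
subvarieties -/
def Eff (l : ℂ) : Set (N₃ l) :=
  closure {v | ∃ (n : ℕ) (a : Fin n → ℝ) (Z : Fin n → SubVar l), (∀ i, 0 ≤ a i) ∧
    v = ∑ i, a i • cl (Z i)}

/-- the class `α` realises general tangent 3-planes: there is a Zariski open condition
`Q(x, v₁, v₂, v₃) ≠ 0`, satisfied for some point `x` of the affine part of `X` and some
`v₁, v₂, v₃ ∈ T_x X`, under which `v₁, v₂, v₃` span a 3-plane which is the tangent space at `x` of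
a subvariety through `x` with class `α` -/
def Realises {l : ℂ} (α : N₃ l) : Prop :=
  ∃ Q : MvPolynomial (Ix ⊕ Fin 3 × Ix) ℂ,
    (∃ x ∈ Xa l, ∃ v : Fin 3 → Ix → ℂ, (∀ i, v i ∈ TX x) ∧
      MvPolynomial.eval (Sum.elim x fun i => v i.1 i.2) Q ≠ 0) ∧
    ∀ x ∈ Xa l, ∀ v : Fin 3 → Ix → ℂ, (∀ i, v i ∈ TX x) →
      MvPolynomial.eval (Sum.elim x fun i => v i.1 i.2) Q ≠ 0 →
      LinearIndependent ℂ v ∧
      ∃ Y : SubVar l, Y.Mem x ∧ cl Y = α ∧ Y.T x = Submodule.span ℂ (Set.range v)

end

end Pool.Agent.VMF
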