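import Pool.Agent.Lib_VM.FIN_h71
import Pool.Agent.Lib_helper92.VM.FDefs

/-!
# MP_5582d1_ag: the main theorem for the short definitions
-/

set_option autoImplicit false

namespace Pool.Agent.VMF.FMain

open Pool.Agent.VM hiding inter cl₀ N₃ cl Eff Realises

noncomputable section

section
variable {l : ℂ} (I : SubVar l → SubVar l → ℕ)

/-- `cl₀` for any pairing -/
def clI₀ (Z : SubVar l) : SubVar l → ℝ := fun W => I Z W

/-- `N₃` for any pairing -/
abbrev NI : Submodule ℝ (SubVar l → ℝ) := Submodule.span ℝ (Set.range (clI₀ I))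

/-- `cl` for any pairing -/
def clI (Z : SubVar l) : NI I := ⟨clI₀ I Z, Submodule.subset_span ⟨Z, rfl⟩⟩

/-- `Eff` for any pairing -/
def EffI : Set (NI I) :=
  closure {v | ∃ (n : ℕ) (a : Fin n → ℝ) (Z : Fin n → SubVar l), (∀ i, 0 ≤ a i) ∧
    v = ∑ i, a i • clI I (Z i)}

/-- `Realises` for any pairing -/
def RealI (α : NI I) : Prop :=
  ∃ Q : MvPolynomial (Ix ⊕ Fin 3 × Ix) ℂ,
    (∃ x ∈ Xa l, ∃ v : Fin 3 → Ix → ℂ, (∀ i, v i ∈ TX x) ∧
      MvPolynomial.eval (Sum.elim x fun i => v i.1 i.2) Q ≠ 0) ∧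
    ∀ x ∈ Xa l, ∀ v : Fin 3 → Ix → ℂ, (∀ i, v i ∈ TX x) →
      MvPolynomial.eval (Sum.elim x fun i => v i.1 i.2) Q ≠ 0 →
      LinearIndependent ℂ v ∧
      ∃ Y : SubVar l, Y.Mem x ∧ clI I Y = α ∧ Y.T x = Submodule.span ℂ (Set.range v)

/-- the statement for any pairing -/
def St : Prop :=
  ∃ Y : SubVar l, RealI I (clI I Y) ∧ clI I Y ∈ EffI I ∧ clI I Y ∉ interior (EffI I) ∧
    ∃ (n : ℕ) (c : Fin n → ℝ) (K : Fin n → SubVar l),
      (∀ Z : SubVar l, 0 ≤ ∑ i, c i * I Z (K i)) ∧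
      (∃ Z : SubVar l, 0 < ∑ i, c i * I Z (K i)) ∧
      ∑ i, c i * I Y (K i) = 0

end

/-- the two definitions of the intersection number agree -/
theorem inter_eq (l : ℂ) :
    (VM.inter : SubVar l → SubVar l → ℕ) = (inter : SubVar l → SubVar l → ℕ) := by
  funext Z W
  rfl

theorem st_old (l : ℂ) (hl : Transcendental ℚ l) : St (VM.inter : SubVar l → SubVar l → ℕ) :=
  FINp.main l hl

theorem st_new (l : ℂ) (hl : Transcendental ℚ l) : St (inter : SubVar l → SubVar l → ℕ) := by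
  rw [← inter_eq]
  exact st_old l hl

end

theorem main (l : ℂ) (hl : Transcendental ℚ l) : ∃ Y : SubVar l,
    Realises (cl Y) ∧ cl Y ∈ Eff l ∧ cl Y ∉ interior (Eff l) ∧
    ∃ (n : ℕ) (c : Fin n → ℝ) (K : Fin n → SubVar l),
      (∀ Z : SubVar l, 0 ≤ ∑ i, c i * inter Z (K i)) ∧
      (∃ Z : SubVar l, 0 < ∑ i, c i * inter Z (K i)) ∧
      ∑ i, c i * inter Y (K i) = 0 :=
  st_new l hl

end Pool.Agent.VMF.FMain
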